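import Pool.Agent.N733.TG.K
import Pool.Agent.Results.MP_dc323a_nt.ExceptionalSetTwelveElevenths

/-!
# The abc conjecture over the Gaussian integers near functions of the values of multiplicative functions

Let `f` be a positive multiplicative function of at most polynomial growth such that `f p ≤ M p` for the large primes `p`,
with different values at different large primes; for example Euler's function or the sum of the divisors. Let `λ > 0`,
`s = min (4 λ / 7) (6 / 11) + max (λ - 1) 0`, `α > 0`, `1 ≤ e < 1 / s` and `κ < 1 - e s`; for `λ ≤ 1` all `e < 11 / 6` are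
possible. For all `m ≤ N` but `N / (log N)^U`, ALL coprime triples `a + b = c` of nonzero Gaussian integers for which
`H = max (|a|, |b|, |c|)` satisfies `|H ^ 2 - α f(m)^e| ≤ f(m)^κ` have `rad (abc) > B H ^ λ`. More generally `G (f m)` takes
the place of `α f(m)^e`, where `G` is any function with steps bounded below by a positive constant and growth at most `v^e`.
The values of `f` are in general taken with very large multiplicities, and so this does not follow from the size of the
exceptional set alone.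

The tool is `Pool.Agent.N733.TG` (helper733); the exceptional triples are counted by the starting theorem
`ExceptionalSetTwelveElevenths` of this problem.
-/

set_option autoImplicit false

namespace Pool.Agent.Results.MP_dc323a_nt.MultiplicativeValues

open ExceptionalSetTwelveElevenths (Exc)
open Pool.Agent.N733.TG (LM Expanding lm_totient lm_sigma keep_windows expanding_pow)

/-- `S` contains exactly one Gaussian prime from each associate class of Gaussian primes dividing `x` -/
def IsPrimeSystem (S : Finset GaussianInt) (x : GaussianInt) : Prop :=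
  (∀ Q ∈ S, Prime Q ∧ Q ∣ x) ∧
  (∀ Q : GaussianInt, Prime Q → Q ∣ x → ∃ R ∈ S, Associated Q R) ∧
  (∀ Q ∈ S, ∀ R ∈ S, Associated Q R → Q = R)

/-- the largest absolute value of the members of a triple -/
noncomputable def height (t : GaussianInt × GaussianInt × GaussianInt) : ℝ :=
  max ‖GaussianInt.toComplex t.1‖
    (max ‖GaussianInt.toComplex t.2.1‖ ‖GaussianInt.toComplex t.2.2‖)

/-- the exponent -/
noncomputable def expo (lam : ℝ) : ℝ := min (4 * lam / 7) (6 / 11) + max (lam - 1) 0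

/-- the exceptional triples, of any height -/
def All (B lam : ℝ) : Set (GaussianInt × GaussianInt × GaussianInt) := ⋃ X : ℝ, Exc B lam X

lemma count (B lam ε : ℝ) (h0 : 0 < lam) (hε : 0 < ε) : ∃ C : ℝ, ∀ X : ℝ, 1 ≤ X →
    {t | t ∈ All B lam ∧ height t ^ 2 ≤ X}.Finite ∧
      ({t | t ∈ All B lam ∧ height t ^ 2 ≤ X}.ncard : ℝ) ≤ C * X ^ (expo lam + ε) := by
  obtain ⟨C, hC⟩ := ExceptionalSetTwelveElevenths.result B lam (2 * ε) h0 (by positivity)
  refine ⟨C, fun X hX => ?_⟩
  have hX0 : 0 < X := by linarith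
  have h1 : 1 ≤ X ^ (1 / 2 : ℝ) := Real.one_le_rpow hX (by norm_num)
  obtain ⟨hfin, hcard⟩ := hC (X ^ (1 / 2 : ℝ)) h1
  have hsub : {t | t ∈ All B lam ∧ height t ^ 2 ≤ X} ⊆ Exc B lam (X ^ (1 / 2 : ℝ)) := by
    rintro t ⟨ht, htX⟩
    obtain ⟨Y, hY⟩ := Set.mem_iUnion.1 ht
    obtain ⟨a1, a2, a3, a4, a5, -, a7⟩ := hY
    refine ⟨a1, a2, a3, a4, a5, ?_, a7⟩
    rw [← Real.sqrt_eq_rpow]
    exact Real.le_sqrt_of_sq_le htX
  refine ⟨hfin.subset hsub, ?_⟩
  have h4 : ({t | t ∈ All B lam ∧ height t ^ 2 ≤ X}.ncard : ℝ) ≤ ((Exc B lam (X ^ (1 / 2 : ℝ))).ncard : ℝ) := by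
    exact_mod_cast Set.ncard_le_ncard hsub hfin
  refine (h4.trans hcard).trans (le_of_eq ?_)
  rw [← Real.rpow_mul hX0.le]
  congr 2
  have h5 : min (8 * lam / 7) (12 / 11 : ℝ) = 2 * min (4 * lam / 7) (6 / 11) := by
    rw [mul_min_of_nonneg _ _ (by norm_num : (0 : ℝ) ≤ 2)]
    congr 1
    · ring
    · norm_num
  rw [h5]
  unfold expo
  ring

/-- **Theorem.** Let `f` be multiplicative and positive, of at most polynomial growth, with `f p ≤ M p` at the large
primes, and injective there. Let `G` have steps `≥ a > 0` and growth at most `v^e`. Let `λ > 0`, `κ ≥ 0` and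
`e * expo λ + κ < 1`, `expo λ = min (4 λ / 7) (6 / 11) + max (λ - 1) 0`. For every real `B`, every `U` and all large `N`, for
all `m ≤ N` but `N / (log N)^U`, ALL coprime triples `a + b = c` of nonzero Gaussian integers with
`|H ^ 2 - G (f m)| ≤ f(m)^κ`, `H = max (|a|, |b|, |c|)`, have `rad (abc) > B H ^ λ`. Euler's function and the sum of the
divisors are examples of such functions `f`, and `α v^e` with `α > 0`, `e ≥ 1` is an example of `G`. -/
theorem result :
    (∀ f : ℕ → ℕ, LM f → ∀ (G : ℕ → ℝ) (e : ℝ), Expanding G e → ∀ κ lam : ℝ, 0 ≤ κ → 0 < lam →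
      e * expo lam + κ < 1 → ∀ (B : ℝ) (U : ℕ), ∃ N₀ : ℕ, ∀ N : ℕ, N₀ ≤ N →
      ({m : ℕ | 1 ≤ m ∧ m ≤ N ∧ ¬ ∀ a b c : GaussianInt,
          a ≠ 0 → b ≠ 0 → c ≠ 0 → a + b = c → IsCoprime a b →
          |height (a, b, c) ^ 2 - G (f m)| ≤ (f m : ℝ) ^ κ →
            ∀ S : Finset GaussianInt, IsPrimeSystem S (a * b * c) →
              B * height (a, b, c) ^ lam < ∏ Q ∈ S, ‖GaussianInt.toComplex Q‖}.ncard : ℝ) ≤ N / Real.log N ^ U) ∧
    (LM Nat.totient ∧ LM (fun m => ∑ d ∈ m.divisors, d)) ∧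
    ∀ α e : ℝ, 0 < α → 1 ≤ e → Expanding (fun v => α * (v : ℝ) ^ e) e := by
  refine ⟨fun f hf G e hG κ lam hκ hlam h1 B U => ?_, ⟨lm_totient, lm_sigma⟩, fun α d hα hd => expanding_pow hα hd⟩
  have hs : 0 ≤ expo lam := add_nonneg (le_min (by positivity) (by norm_num)) (le_max_right _ _)
  obtain ⟨N₀, hN₀⟩ := keep_windows (All B lam) (fun t => height t ^ 2) hf hG (s := expo lam) (κ := κ) hs hκ h1
    (fun ε hε => count B lam ε hlam hε) U
  refine ⟨N₀, fun N hN => le_trans ?_ (hN₀ N hN)⟩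
  have hfin : {m : ℕ | 1 ≤ m ∧ m ≤ N ∧ ∃ t ∈ All B lam, |height t ^ 2 - G (f m)| ≤ (f m : ℝ) ^ κ}.Finite :=
    (Set.finite_Icc 1 N).subset fun m hm => ⟨hm.1, hm.2.1⟩
  refine Nat.cast_le.2 (Set.ncard_le_ncard ?_ hfin)
  rintro m ⟨h3, h4, h5⟩
  push Not at h5
  obtain ⟨a, b, c, ha, hb, hc, habc, hcop, hw, S, hS, hcon⟩ := h5
  exact ⟨h3, h4, (a, b, c), Set.mem_iUnion.2 ⟨height (a, b, c), ha, hb, hc, habc, hcop, le_refl _, S, hS, hcon⟩, hw⟩

end Pool.Agent.Results.MP_dc323a_nt.MultiplicativeValues
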