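import Pool.Agent.N550.OC.Fin
import Pool.Agent.N550.OC.P1A
import Pool.Agent.N550.OC.P1B
import Pool.Agent.N550.OC.SA
import Pool.Agent.N550.OC.P2A
import Pool.Agent.N550.OC.P2
import Pool.Agent.N550.OC.ROT

/-!
# Smooth 4-balls with a homeomorphism onto the standard ball, regular off one point, with one smooth coordinate there

Every smooth 4-ball bounded by a smooth 3-sphere in `S⁴` has a homeomorphism onto the closed unit ball of `ℝ⁴` which is
regular (smooth with bijective derivative) off one interior point `x₀` (Mazur). We show: a smooth 4-manifold `M` with boundary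
is diffeomorphic to the closed unit ball if and only if it has such a homeomorphism `h` for which ONE linear coordinate `ℓ ∘ h` is
smooth near `x₀`, with nonzero derivative at `x₀`.
-/

set_option autoImplicit false

open Set Filter Topology Metric Function
open scoped Manifold ContDiff

noncomputable section

namespace Pool.Agent.N918.Shelf.OneSmoothCoordinate

/-- `ℝ⁴` -/
abbrev R4 : Type := EuclideanSpace ℝ (Fin 4)

/-- the closed half-space of `ℝ⁴`, the model of the 4-manifolds with boundary -/
abbrev H4 : Type := EuclideanHalfSpace 4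

section defs

variable {M : Type} [TopologicalSpace M] [ChartedSpace H4 M]

/-- `x` is an interior point of the manifold with boundary `M` -/
def IsInterior (x : M) : Prop := x ∈ (𝓡∂ 4).interior M

/-- `f` is of class `C^∞` at `x` -/
def SmoothAt (f : M → R4) (x : M) : Prop := ContMDiffAt (𝓡∂ 4) (𝓡 4) ∞ f x

/-- the derivative of `f` at `x`, as a linear map from `ℝ⁴` to `ℝ⁴` (in the preferred chart) -/
def der (f : M → R4) (x : M) : R4 →L[ℝ] R4 := mfderiv (𝓡∂ 4) (𝓡 4) f x

/-- `f` is of class `C^∞` near `x` (no condition is imposed on the derivative) -/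
def SmoothNear (f : M → R4) (x : M) : Prop := ∀ᶠ y in 𝓝 x, SmoothAt f y

/-- `h` is a homeomorphism of `M` with the closed unit ball of `ℝ⁴` -/
def IsHomeoToBall (h : M → R4) : Prop := IsEmbedding h ∧ range h = closedBall 0 1

/-- `h` is regular at `x`: smooth near `x`, with bijective derivative at `x` (at an interior point
this means that `h` is a local diffeomorphism at `x`) -/
def Regular (h : M → R4) (x : M) : Prop := SmoothNear h x ∧ Bijective (der h x)

/-- the function `u` is of class `C^∞` at `x` -/
def FnSmoothAt (u : M → ℝ) (x : M) : Prop := ContMDiffAt (𝓡∂ 4) 𝓘(ℝ, ℝ) ∞ u x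

/-- the function `u` is of class `C^∞` near `x` -/
def FnSmoothNear (u : M → ℝ) (x : M) : Prop := ∀ᶠ y in 𝓝 x, FnSmoothAt u y

/-- the derivative of the function `u` at `x`, a linear form on `ℝ⁴` (in the preferred chart) -/
def fnDer (u : M → ℝ) (x : M) : R4 →L[ℝ] ℝ := mfderiv (𝓡∂ 4) 𝓘(ℝ, ℝ) u x

/-- the linear coordinate `ℓ` of `h` -/
def coordinate (ℓ : R4 →L[ℝ] ℝ) (h : M → R4) : M → ℝ := fun z => ℓ (h z)

/-- one linear coordinate of `h` is smooth near `x`, with nonzero derivative at `x` -/
def OneCoordinate (h : M → R4) (x : M) : Prop :=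
  ∃ ℓ : R4 →L[ℝ] ℝ, FnSmoothNear (coordinate ℓ h) x ∧ fnDer (coordinate ℓ h) x ≠ 0

/-- some homeomorphism of `M` with the ball is regular at all the points but one interior point, near which one linear
coordinate is smooth, with nonzero derivative at this point -/
def HomeoOneCoordinate (M : Type) [TopologicalSpace M] [ChartedSpace H4 M] : Prop :=
  ∃ (h : M → R4) (x₀ : M), IsHomeoToBall h ∧ IsInterior x₀ ∧ (∀ x, x ≠ x₀ → Regular h x) ∧ OneCoordinate h x₀

/-- `M` is diffeomorphic to the closed unit ball: some homeomorphism is regular at all the points (also at the boundary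
points) -/
def IsBall (M : Type) [TopologicalSpace M] [ChartedSpace H4 M] : Prop :=
  ∃ H : M → R4, IsHomeoToBall H ∧ ∀ x, Regular H x

end defs

/-- **A smooth 4-manifold is diffeomorphic to the closed unit ball of `ℝ⁴` if and only if it has a homeomorphism onto the ball
which is regular off one interior point, at which one linear coordinate is smooth with nonzero derivative.** -/
theorem result (M : Type) [TopologicalSpace M] [ChartedSpace H4 M] [IsManifold (𝓡∂ 4) ∞ M] :
    HomeoOneCoordinate M ↔ IsBall M := by
  constructor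
  · rintro ⟨h, x₀, h1, h2, h3, h4⟩
    exact Pool.Agent.N550.OC.Fin.main (Pool.Agent.N550.OC.P2.main Pool.Agent.N550.OC.P1A.main Pool.Agent.N550.OC.P1B.main
      Pool.Agent.N550.OC.SA.main Pool.Agent.N550.OC.P2A.main) Pool.Agent.N550.OC.ROT.main M h x₀ h1 h2 h3 h4
  · rintro ⟨H, h1, h2⟩
    obtain ⟨x₀, h3, h4⟩ := Pool.Agent.N550.OC.Fin.conv H h1 h2
    exact ⟨H, x₀, h1, h3, fun x _ => h2 x, h4⟩

end Pool.Agent.N918.Shelf.OneSmoothCoordinate
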